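import Pool.Agent.Lib.RosG.Defs

set_option autoImplicit false

namespace RosG

open Filter Topology Ne729cbcb

private theorem bound_aux {c : ℕ → ℝ} (h : Tendsto (fun n : ℕ => c n / n) atTop (𝓝 0))
    {ε : ℝ} (he : 0 < ε) : ∃ C : ℝ, 0 ≤ C ∧ ∀ n : ℕ, |c n| ≤ ε * n + C := by
  have h1 : ∀ᶠ n : ℕ in atTop, |c n / n| < ε := by
    have := (tendsto_order.1 (h.abs)).2 ε (by simpa using he)
    exact this
  obtain ⟨N, hN⟩ := eventually_atTop.1 h1
  refine ⟨∑ n ∈ Finset.range (N + 1), |c n|, Finset.sum_nonneg fun _ _ => abs_nonneg _, ?_⟩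
  intro n
  by_cases hn : n < N + 1
  · have : |c n| ≤ ∑ n ∈ Finset.range (N + 1), |c n| :=
      Finset.single_le_sum (f := fun n => |c n|) (fun _ _ => abs_nonneg _)
        (Finset.mem_range.2 hn)
    have h2 : 0 ≤ ε * n := by positivity
    linarith
  · have hn' : N ≤ n := by omega
    have hpos : (0 : ℝ) < n := by
      have : 0 < n := by omega
      exact_mod_cast this
    have h3 := hN n hn'
    rw [abs_div, abs_of_pos hpos, div_lt_iff₀ hpos] at h3
    have h4 : 0 ≤ ∑ n ∈ Finset.range (N + 1), |c n| :=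
      Finset.sum_nonneg fun _ _ => abs_nonneg _
    linarith

private theorem lim_aux :
    Tendsto (fun s : ℝ => s / (Real.exp s - 1)) (𝓝[>] 0) (𝓝 1) := by
  have h1 : Tendsto (slope Real.exp 0) (𝓝[≠] 0) (𝓝 (Real.exp 0)) :=
    hasDerivAt_iff_tendsto_slope.1 (Real.hasDerivAt_exp 0)
  have h2 : Tendsto (slope Real.exp 0) (𝓝[>] 0) (𝓝 1) := by
    rw [Real.exp_zero] at h1
    exact h1.mono_left (nhdsWithin_mono _ fun x hx => ne_of_gt hx)
  have h3 := h2.inv₀ one_ne_zero
  rw [inv_one] at h3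
  refine h3.congr fun s => ?_
  rw [slope_def_field, Real.exp_zero, sub_zero, inv_div]

/-- PROOF: with `q = e^(-s)`: `∑ n q^n = q / (1-q)^2`; split `|O n - b n| ≤ ε n + C`; then
`|(1-q)^2 ∑ O n q^n - b q| ≤ ε q + C (1 - q)`, and `s / (1 - e^(-s)) → 1`. -/
theorem abel {O : ℕ → ℝ} {b : ℝ} (h : Tendsto (fun n : ℕ => O n / n) atTop (𝓝 b)) :
    Tendsto (fun s : ℝ => s * ((1 - Real.exp (-s)) * ∑' n : ℕ, O n * Real.exp (-(s * n))))
      (𝓝[>] 0) (𝓝 b) := by
  set c : ℕ → ℝ := fun n => O n - b * n with hc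
  have hc0 : Tendsto (fun n : ℕ => c n / n) atTop (𝓝 0) := by
    have h1 : Tendsto (fun n : ℕ => O n / n - b) atTop (𝓝 (b - b)) := h.sub_const b
    rw [sub_self] at h1
    refine h1.congr' ?_
    filter_upwards [eventually_gt_atTop 0] with n hn
    have : (n : ℝ) ≠ 0 := by positivity
    simp only [hc]
    field_simp
  -- the identities for fixed s
  have hq : ∀ s : ℝ, 0 < s → 0 < Real.exp (-s) ∧ Real.exp (-s) < 1 := fun s hs =>
    ⟨Real.exp_pos _, by rw [Real.exp_lt_one_iff]; linarith⟩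
  have hpow : ∀ (s : ℝ) (n : ℕ), Real.exp (-(s * n)) = Real.exp (-s) ^ n := by
    intro s n
    rw [← Real.exp_nat_mul]
    congr 1
    ring
  have hA : ∀ s : ℝ, 0 < s → HasSum (fun n : ℕ => (n : ℝ) * Real.exp (-(s * n)))
      (Real.exp (-s) / (1 - Real.exp (-s)) ^ 2) := by
    intro s hs
    have hn : ‖Real.exp (-s)‖ < 1 := by
      rw [Real.norm_of_nonneg (hq s hs).1.le]; exact (hq s hs).2
    have := hasSum_coe_mul_geometric_of_norm_lt_one hn
    simpa only [hpow] using this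
  have hB : ∀ s : ℝ, 0 < s → HasSum (fun n : ℕ => Real.exp (-(s * n)))
      (1 - Real.exp (-s))⁻¹ := by
    intro s hs
    have := hasSum_geometric_of_lt_one (hq s hs).1.le (hq s hs).2
    simpa only [hpow] using this
  have hbd : ∀ ε : ℝ, 0 < ε → ∃ C : ℝ, 0 ≤ C ∧ ∀ s : ℝ, 0 < s →
      Summable (fun n : ℕ => c n * Real.exp (-(s * n))) ∧
      |s * ((1 - Real.exp (-s)) * ∑' n : ℕ, c n * Real.exp (-(s * n)))| ≤ ε + C * s := by
    intro ε he
    obtain ⟨C, hC0, hC⟩ := bound_aux hc0 he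
    refine ⟨C, hC0, fun s hs => ?_⟩
    have hq1 := hq s hs
    have hS : HasSum (fun n : ℕ => ε * ((n : ℝ) * Real.exp (-(s * n))) +
        C * Real.exp (-(s * n)))
        (ε * (Real.exp (-s) / (1 - Real.exp (-s)) ^ 2) + C * (1 - Real.exp (-s))⁻¹) :=
      ((hA s hs).mul_left ε).add ((hB s hs).mul_left C)
    have hle : ∀ n : ℕ, ‖c n * Real.exp (-(s * n))‖ ≤
        ε * ((n : ℝ) * Real.exp (-(s * n))) + C * Real.exp (-(s * n)) := by
      intro n
      rw [norm_mul, Real.norm_of_nonneg (Real.exp_pos _).le, Real.norm_eq_abs]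
      have := mul_le_mul_of_nonneg_right (hC n) (Real.exp_pos (-(s * n))).le
      linarith
    have hsum : Summable (fun n : ℕ => c n * Real.exp (-(s * n))) :=
      Summable.of_norm_bounded hS.summable hle
    refine ⟨hsum, ?_⟩
    have h1 : |∑' n : ℕ, c n * Real.exp (-(s * n))| ≤
        ε * (Real.exp (-s) / (1 - Real.exp (-s)) ^ 2) + C * (1 - Real.exp (-s))⁻¹ := by
      rw [← Real.norm_eq_abs]
      exact tsum_of_norm_bounded hS hle
    have hpos : 0 < 1 - Real.exp (-s) := by linarith [hq1.2]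
    have h2 : s * (1 - Real.exp (-s)) * (ε * (Real.exp (-s) / (1 - Real.exp (-s)) ^ 2) +
        C * (1 - Real.exp (-s))⁻¹) ≤ ε + C * s := by
      have h3 : s * (1 - Real.exp (-s)) * (ε * (Real.exp (-s) / (1 - Real.exp (-s)) ^ 2) +
        C * (1 - Real.exp (-s))⁻¹) =
          ε * (s * Real.exp (-s) / (1 - Real.exp (-s))) + C * s := by
        field_simp
      rw [h3]
      have h4 : s * Real.exp (-s) / (1 - Real.exp (-s)) ≤ 1 := by
        rw [div_le_one hpos]
        have h5 : s + 1 ≤ Real.exp s := Real.add_one_le_exp s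
        have h6 : (s + 1) * Real.exp (-s) ≤ Real.exp s * Real.exp (-s) :=
          mul_le_mul_of_nonneg_right h5 hq1.1.le
        rw [← Real.exp_add, add_neg_cancel, Real.exp_zero] at h6
        linarith
      have h7 := mul_le_mul_of_nonneg_left h4 he.le
      linarith
    rw [← mul_assoc, abs_mul, abs_of_pos (mul_pos hs hpos)]
    exact (mul_le_mul_of_nonneg_left h1 (mul_pos hs hpos).le).trans h2
  -- the error term
  have hE : Tendsto (fun s : ℝ => s * ((1 - Real.exp (-s)) *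
      ∑' n : ℕ, c n * Real.exp (-(s * n)))) (𝓝[>] 0) (𝓝 0) := by
    rw [Metric.tendsto_nhds]
    intro ε he
    obtain ⟨C, hC0, hC⟩ := hbd (ε / 2) (by positivity)
    have hlim : Tendsto (fun s : ℝ => ε / 2 + C * s) (𝓝[>] 0) (𝓝 (ε / 2 + C * 0)) :=
      (((continuous_const.add (continuous_const.mul continuous_id)).tendsto 0).mono_left
        nhdsWithin_le_nhds)
    have hev : ∀ᶠ s : ℝ in 𝓝[>] 0, ε / 2 + C * s < ε :=
      (tendsto_order.1 hlim).2 ε (by linarith)
    filter_upwards [hev, self_mem_nhdsWithin] with s h1 h2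
    rw [Real.dist_eq, sub_zero]
    exact ((hC s h2).2).trans_lt h1
  have hM : Tendsto (fun s : ℝ => b * (s / (Real.exp s - 1))) (𝓝[>] 0) (𝓝 (b * 1)) :=
    lim_aux.const_mul b
  have hT := hM.add hE
  rw [mul_one, add_zero] at hT
  refine hT.congr' ?_
  filter_upwards [self_mem_nhdsWithin] with s hs
  have hs' : (0 : ℝ) < s := hs
  have hq1 := hq s hs'
  obtain ⟨C, -, hC⟩ := hbd 1 one_pos
  have hsum := (hC s hs').1
  have hpos : 0 < 1 - Real.exp (-s) := by linarith [hq1.2]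
  have h1 : ∑' n : ℕ, O n * Real.exp (-(s * n)) =
      b * (Real.exp (-s) / (1 - Real.exp (-s)) ^ 2) +
        ∑' n : ℕ, c n * Real.exp (-(s * n)) := by
    rw [← (hA s hs').tsum_eq, ← tsum_mul_left, ← ((hA s hs').summable.mul_left b).tsum_add hsum]
    refine tsum_congr fun n => ?_
    simp only [hc]
    ring
  rw [h1]
  have hexp : Real.exp s - 1 = (1 - Real.exp (-s)) / Real.exp (-s) := by
    rw [Real.exp_neg]
    field_simp
  rw [hexp]
  have hne : Real.exp (-s) ≠ 0 := (Real.exp_pos _).ne'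
  field_simp

end RosG
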