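import Pool.Agent.Lib.RosG.Defs

set_option autoImplicit false

namespace RosG

open Filter Topology Ne729cbcb

lemma exp_pow_aux (s : ℝ) (m : ℕ) : Real.exp (-(s * (m : ℝ))) = Real.exp (-s) ^ m := by
  rw [← Real.exp_nat_mul]
  congr 1
  ring

theorem summable_gf {a : ℕ → ℕ} (ha : ∀ k, k ≤ a k) {s : ℝ} (hs : 0 < s) :
    Summable fun k => Real.exp (-(s * (a k : ℝ))) := by
  have h1 : Summable fun k : ℕ => Real.exp (-s) ^ k :=
    summable_geometric_of_lt_one (Real.exp_pos _).le (by rw [Real.exp_lt_one_iff]; linarith)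
  refine Summable.of_nonneg_of_le (fun k => (Real.exp_pos _).le) (fun k => ?_) h1
  rw [exp_pow_aux]
  exact pow_le_pow_of_le_one (Real.exp_pos _).le
    (by rw [Real.exp_le_one_iff]; linarith) (ha k)

lemma tail_geom {q : ℝ} (hq0 : 0 < q) (hq1 : q < 1) (m : ℕ) :
    HasSum (fun n : ℕ => if m ≤ n then q ^ n else 0) (q ^ m * (1 - q)⁻¹) := by
  have h1 : HasSum (fun n : ℕ => q ^ m * q ^ n) (q ^ m * (1 - q)⁻¹) :=
    (hasSum_geometric_of_lt_one hq0.le hq1).mul_left _
  rw [← hasSum_nat_add_iff' m]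
  have h2 : ∑ i ∈ Finset.range m, (if m ≤ i then q ^ i else 0) = 0 := by
    apply Finset.sum_eq_zero
    intro i hi
    rw [Finset.mem_range] at hi
    rw [if_neg (by omega)]
  rw [h2, sub_zero]
  refine h1.congr_fun ?_
  intro n
  rw [if_pos (by omega), pow_add, mul_comm]

/-- PROOF: `Gf ^ 2 = ∑ over pairs e^(-s (a_i + a_j))`, `e^(-s m) = (1 - e^(-s)) ∑_(n ≥ m) e^(-s n)`,
exchange the sums (all terms nonnegative); a pair with `a_i + a_j ≤ n` has `i, j ≤ n`. -/
theorem gf_sq {a : ℕ → ℕ} (ha : ∀ k, k ≤ a k) {s : ℝ} (hs : 0 < s) :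
    Gf (fun k => (a k : ℝ)) s ^ 2
      = (1 - Real.exp (-s)) * ∑' n : ℕ, (Oc a n : ℝ) * Real.exp (-(s * n)) := by
  obtain ⟨q, hq⟩ : ∃ q, q = Real.exp (-s) := ⟨_, rfl⟩
  have hq0 : 0 < q := by rw [hq]; exact Real.exp_pos _
  have hq1 : q < 1 := by rw [hq, Real.exp_lt_one_iff]; linarith
  have hs1 : Summable fun k => q ^ a k := by
    have := summable_gf ha hs
    simp only [exp_pow_aux, ← hq] at this
    exact this
  have hsn : Summable fun k => ‖q ^ a k‖ := hs1.norm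
  have hG : Gf (fun k => (a k : ℝ)) s = ∑' k, q ^ a k := by
    unfold Gf
    simp only [exp_pow_aux, ← hq]
  have hpair : Summable fun p : ℕ × ℕ => q ^ a p.1 * q ^ a p.2 :=
    summable_mul_of_summable_norm hsn hsn
  have h1 : Gf (fun k => (a k : ℝ)) s ^ 2 = ∑' p : ℕ × ℕ, q ^ a p.1 * q ^ a p.2 := by
    rw [hG, sq, tsum_mul_tsum_of_summable_norm hsn hsn]
  have hin : ∀ p : ℕ × ℕ, HasSum (fun n : ℕ => if a p.1 + a p.2 ≤ n then q ^ n else 0)
      (q ^ a p.1 * q ^ a p.2 * (1 - q)⁻¹) := by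
    intro p
    have := tail_geom hq0 hq1 (a p.1 + a p.2)
    rwa [pow_add] at this
  have hsw : Summable (Function.uncurry fun (p : ℕ × ℕ) (n : ℕ) =>
      if a p.1 + a p.2 ≤ n then q ^ n else 0) := by
    rw [summable_prod_of_nonneg]
    · refine ⟨fun p => (hin p).summable, ?_⟩
      have h2 : (fun p : ℕ × ℕ => ∑' n : ℕ, Function.uncurry (fun (p : ℕ × ℕ) (n : ℕ) =>
          if a p.1 + a p.2 ≤ n then q ^ n else 0) (p, n))
          = fun p => q ^ a p.1 * q ^ a p.2 * (1 - q)⁻¹ := by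
        funext p
        exact (hin p).tsum_eq
      rw [h2]
      exact hpair.mul_right _
    · intro x
      simp only [Function.uncurry]
      split_ifs
      · positivity
      · exact le_rfl
  have hcomm := hsw.tsum_comm
  have hL : ∑' (p : ℕ × ℕ) (n : ℕ), (if a p.1 + a p.2 ≤ n then q ^ n else 0)
      = (∑' p : ℕ × ℕ, q ^ a p.1 * q ^ a p.2) * (1 - q)⁻¹ := by
    rw [← tsum_mul_right]
    exact tsum_congr fun p => (hin p).tsum_eq
  have hR : ∀ n : ℕ, ∑' p : ℕ × ℕ, (if a p.1 + a p.2 ≤ n then q ^ n else 0)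
      = (Oc a n : ℝ) * q ^ n := by
    intro n
    rw [tsum_eq_sum (s := Finset.range (n + 1) ×ˢ Finset.range (n + 1))]
    · rw [← Finset.sum_filter, Finset.sum_const, nsmul_eq_mul]
      rfl
    · intro p hp
      rw [if_neg]
      intro hle
      apply hp
      have := ha p.1
      have := ha p.2
      rw [Finset.mem_product, Finset.mem_range, Finset.mem_range]
      omega
  have hkey : (∑' p : ℕ × ℕ, q ^ a p.1 * q ^ a p.2) * (1 - q)⁻¹
      = ∑' n : ℕ, (Oc a n : ℝ) * q ^ n := by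
    rw [← hL]
    rw [show (∑' (p : ℕ × ℕ) (n : ℕ), (if a p.1 + a p.2 ≤ n then q ^ n else 0))
      = ∑' (n : ℕ) (p : ℕ × ℕ), (if a p.1 + a p.2 ≤ n then q ^ n else 0) from hcomm.symm]
    exact tsum_congr hR
  have h1q : (1 - q) ≠ 0 := by linarith
  rw [h1, ← hq]
  simp only [exp_pow_aux, ← hq]
  rw [← hkey]
  field_simp

end RosG
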