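import Pool.Agent.Lib.RosG.Defs

set_option autoImplicit false

namespace RosG

open Filter Topology Ne729cbcb Pool.Agent.Lib.MP_e43e79_nt

/-- PROOF: the ordered pairs are the pairs `i ≤ j` and their mirror images; the pair `(0, 0)` is not
counted in `solutionCount`; the diagonal pairs `2 a_i ≤ n` are counted once. -/
theorem oc_eq (n : ℕ) : Oc rosen n + ((Finset.range (n + 1)).filter fun i => 2 * rosen i ≤ n).card
    = 2 * solutionCount n + 2 := by
  classical
  set R : Finset (ℕ × ℕ) := Finset.range (n + 1) ×ˢ Finset.range (n + 1) with hR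
  set U : Finset (ℕ × ℕ) := R.filter fun p => p.1 ≤ p.2 ∧ rosen p.1 + rosen p.2 ≤ n with hU
  set L : Finset (ℕ × ℕ) := R.filter fun p => p.2 ≤ p.1 ∧ rosen p.1 + rosen p.2 ≤ n with hL
  have hUL : U ∪ L = R.filter fun p : ℕ × ℕ => rosen p.1 + rosen p.2 ≤ n := by
    ext p
    simp only [hU, hL, Finset.mem_union, Finset.mem_filter]
    constructor
    · rintro (h | h)
      · exact ⟨h.1, h.2.2⟩
      · exact ⟨h.1, h.2.2⟩
    · intro h
      rcases le_total p.1 p.2 with h1 | h1
      · exact Or.inl ⟨h.1, h1, h.2⟩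
      · exact Or.inr ⟨h.1, h1, h.2⟩
  have hcardL : L.card = U.card := by
    refine Finset.card_bij' (fun p _ => (p.2, p.1)) (fun p _ => (p.2, p.1)) ?_ ?_ ?_ ?_
    · intro p hp
      simp only [hU, hL, hR, Finset.mem_filter, Finset.mem_product, Finset.mem_range] at hp ⊢
      exact ⟨⟨hp.1.2, hp.1.1⟩, hp.2.1, by omega⟩
    · intro p hp
      simp only [hU, hL, hR, Finset.mem_filter, Finset.mem_product, Finset.mem_range] at hp ⊢
      exact ⟨⟨hp.1.2, hp.1.1⟩, hp.2.1, by omega⟩
    · intro p _; rfl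
    · intro p _; rfl
  have hint : (U ∩ L).card = ((Finset.range (n + 1)).filter fun i => 2 * rosen i ≤ n).card := by
    refine Finset.card_bij' (fun p _ => p.1) (fun i _ => (i, i)) ?_ ?_ ?_ ?_
    · intro p hp
      simp only [hU, hL, hR, Finset.mem_inter, Finset.mem_filter, Finset.mem_product,
        Finset.mem_range] at hp ⊢
      obtain ⟨⟨⟨h1, h2⟩, h3, h4⟩, -, h5, -⟩ := hp
      have h6 : p.1 = p.2 := le_antisymm h3 h5
      refine ⟨h1, ?_⟩
      rw [← h6] at h4
      omega
    · intro i hi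
      simp only [hU, hL, hR, Finset.mem_inter, Finset.mem_filter, Finset.mem_product,
        Finset.mem_range] at hi ⊢
      refine ⟨⟨⟨hi.1, hi.1⟩, le_rfl, by omega⟩, ⟨hi.1, hi.1⟩, le_rfl, by omega⟩
    · intro p hp
      simp only [hU, hL, Finset.mem_inter, Finset.mem_filter] at hp
      exact Prod.ext rfl (le_antisymm hp.1.2.1 hp.2.2.1)
    · intro i _; rfl
  have hUS : U.card = solutionCount n + 1 := by
    have h0 : U = insert (0, 0) (R.filter fun p : ℕ × ℕ =>
        p.1 ≤ p.2 ∧ 1 ≤ p.2 ∧ rosen p.1 + rosen p.2 ≤ n) := by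
      ext ⟨i, j⟩
      simp only [hU, hR, Finset.mem_insert, Finset.mem_filter, Finset.mem_product,
        Finset.mem_range, Prod.mk.injEq]
      constructor
      · rintro ⟨⟨h1, h2⟩, h3, h4⟩
        rcases Nat.eq_zero_or_pos j with hj | hj
        · left; omega
        · right; exact ⟨⟨h1, h2⟩, h3, hj, h4⟩
      · rintro (⟨rfl, rfl⟩ | ⟨⟨h1, h2⟩, h3, -, h4⟩)
        · refine ⟨⟨by omega, by omega⟩, le_rfl, ?_⟩
          rw [rosen_zero]; omega
        · exact ⟨⟨h1, h2⟩, h3, h4⟩
    rw [h0, Finset.card_insert_of_notMem (by simp)]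
    rfl
  have h1 := Finset.card_union_add_card_inter U L
  rw [hUL, hint, hcardL, hUS] at h1
  have h2 : (R.filter fun p : ℕ × ℕ => rosen p.1 + rosen p.2 ≤ n).card = Oc rosen n := rfl
  omega

private lemma diag_sq (n : ℕ) :
    (((Finset.range (n + 1)).filter fun i => 2 * rosen i ≤ n).card) ^ 2 ≤ 2 * n + 5 := by
  classical
  set S := (Finset.range (n + 1)).filter fun i => 2 * rosen i ≤ n with hS
  rcases Nat.eq_zero_or_pos S.card with h0 | h0
  · rw [h0]; omega
  · obtain ⟨i, hi, hle⟩ : ∃ i ∈ S, S.card ≤ i + 1 := by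
      by_contra hcon
      push Not at hcon
      have hsub : S ⊆ Finset.range (S.card - 1) := by
        intro i hi
        have := hcon i hi
        rw [Finset.mem_range]
        omega
      have := Finset.card_le_card hsub
      rw [Finset.card_range] at this
      omega
    have h2 : 2 * rosen i ≤ n := (Finset.mem_filter.1 hi).2
    have h3 := global_bound i
    calc S.card ^ 2 ≤ (i + 2) ^ 2 := Nat.pow_le_pow_left (by omega) 2
      _ ≤ 4 * rosen i + 5 := h3
      _ ≤ 2 * n + 5 := by omega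

/-- PROOF: `oc_eq`, `le_solutionCount`, `h`; the diagonal has at most `i + 1` elements where
`(i + 2)^2 ≤ 4 a_i + 5 ≤ 2 n + 5` (`global_bound`). -/
theorem oc_tendsto (h : ∀ ε > (0 : ℝ), ∀ᶠ x : ℕ in atTop, (solutionCount x : ℝ) ≤ (1 + ε) * x) :
    Tendsto (fun n : ℕ => (Oc rosen n : ℝ) / n) atTop (𝓝 2) := by
  have hoc : ∀ n : ℕ, (Oc rosen n : ℝ) +
      (((Finset.range (n + 1)).filter fun i => 2 * rosen i ≤ n).card : ℝ) =
      2 * (solutionCount n : ℝ) + 2 := fun n => by exact_mod_cast oc_eq n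
  rw [tendsto_order]
  constructor
  · intro a ha
    set δ : ℝ := (2 - a) / 2 with hδ
    have hδ0 : 0 < δ := by rw [hδ]; linarith
    have hev : ∀ᶠ n : ℕ in atTop, (7 / δ ^ 2 : ℝ) ≤ n := by
      filter_upwards [eventually_ge_atTop ⌈(7 / δ ^ 2 : ℝ)⌉₊] with n hn
      exact (Nat.le_ceil _).trans (by exact_mod_cast hn)
    filter_upwards [hev, eventually_ge_atTop 1] with n hn hn1
    have hn1' : (1 : ℝ) ≤ n := by exact_mod_cast hn1
    have hn0 : (0 : ℝ) < n := by linarith
    have h1 := hoc n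
    have h2 : (n : ℝ) ≤ solutionCount n := by exact_mod_cast le_solutionCount n
    set d : ℝ := (((Finset.range (n + 1)).filter fun i => 2 * rosen i ≤ n).card : ℝ) with hd
    have hd0 : 0 ≤ d := Nat.cast_nonneg _
    have hd2 : d ^ 2 ≤ 2 * n + 5 := by
      have := diag_sq n
      rw [hd]
      exact_mod_cast this
    have h3 : 7 ≤ n * δ ^ 2 := by
      rw [div_le_iff₀ (by positivity)] at hn
      linarith
    have h4 : d ^ 2 ≤ (δ * n) ^ 2 := by
      have h5 : 7 * (n : ℝ) ≤ (δ * n) ^ 2 := by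
        have : (δ * n) ^ 2 = (n * δ ^ 2) * n := by ring
        rw [this]
        exact mul_le_mul_of_nonneg_right h3 hn0.le
      linarith
    have h5 : d ≤ δ * n := by
      refine (abs_le_of_sq_le_sq' h4 (by positivity)).2
    rw [lt_div_iff₀ hn0]
    have h6 : a * n = 2 * n - 2 * (δ * n) := by rw [hδ]; ring
    have h7 : 0 < δ * n := by positivity
    linarith
  · intro a ha
    set ε : ℝ := (a - 2) / 4 with hε
    have hε0 : 0 < ε := by rw [hε]; linarith
    have hev : ∀ᶠ n : ℕ in atTop, (1 / ε : ℝ) < n := by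
      filter_upwards [eventually_gt_atTop ⌈(1 / ε : ℝ)⌉₊] with n hn
      exact (Nat.le_ceil _).trans_lt (by exact_mod_cast hn)
    filter_upwards [h ε hε0, hev, eventually_ge_atTop 1] with n h1 hn hn1
    have hn1' : (1 : ℝ) ≤ n := by exact_mod_cast hn1
    have hn0 : (0 : ℝ) < n := by linarith
    have h2 := hoc n
    have hd0 : (0 : ℝ) ≤ (((Finset.range (n + 1)).filter fun i => 2 * rosen i ≤ n).card : ℝ) :=
      Nat.cast_nonneg _
    rw [div_lt_iff₀ hn0]
    rw [div_lt_iff₀ hε0] at hn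
    have h6 : a * n = 2 * n + 4 * (n * ε) := by rw [hε]; ring
    have h7 : (1 + ε) * n = n + n * ε := by ring
    rw [h7] at h1
    rw [h6]
    linarith

end RosG
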