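import Pool.Agent.Lib.RosG.Defs

set_option autoImplicit false

namespace RosG

open Filter Topology Ne729cbcb Pool.Agent.Lib.MP_e43e79_nt

private theorem sol_mono' {x y : ℕ} (h : x ≤ y) : solutionCount x ≤ solutionCount y := by
  obtain ⟨k, _, h2⟩ := exists_between y
  rw [solutionCount_eq (lt_of_le_of_lt h h2), solutionCount_eq h2]
  exact pairCount_mono h

/-- PROOF: `a_k ≤ x < a_(k+1)` (`exists_between`), `solutionCount x ≤ solutionCount (a_(k+1)) =
a_(k+1)` (monotone: `solutionCount_eq`, `pairCount_mono`, `pairCount_succ`; `solutionCount_rosen`),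
and `a_(k+1) ≤ (1 + ε) a_k ≤ (1 + ε) x` for large `k`; `k → ∞` with `x`. -/
theorem q1_of_ratio
    (h : Tendsto (fun k : ℕ => (rosen (k + 1) : ℝ) / rosen k) atTop (𝓝 1)) :
    ∀ ε > (0 : ℝ), ∀ᶠ x : ℕ in atTop, (solutionCount x : ℝ) ≤ (1 + ε) * x := by
  intro ε hε
  have h1 : ∀ᶠ k : ℕ in atTop, (rosen (k + 1) : ℝ) / rosen k < 1 + ε :=
    h.eventually (gt_mem_nhds (by linarith))
  obtain ⟨K, hK⟩ := eventually_atTop.1 h1
  refine eventually_atTop.2 ⟨rosen (K + 1), fun x hx => ?_⟩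
  obtain ⟨k, hk1, hk2⟩ := exists_between x
  have hKk : K + 1 ≤ k := by
    by_contra hcon
    have : rosen (k + 1) ≤ rosen (K + 1) := rosen_le.2 (by omega)
    omega
  have h2 := hK k (by omega)
  have hpos : (0 : ℝ) < rosen k := by
    have : k ≤ rosen k := le_rosen k
    exact_mod_cast (by omega : 0 < rosen k)
  rw [div_lt_iff₀ hpos] at h2
  have h3 : solutionCount x ≤ rosen (k + 1) := by
    rw [← solutionCount_rosen (k + 1)]
    exact sol_mono' hk2.le
  have h3' : (solutionCount x : ℝ) ≤ rosen (k + 1) := by exact_mod_cast h3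
  have h4 : (rosen k : ℝ) ≤ x := by exact_mod_cast hk1
  have h5 : (1 + ε) * (rosen k : ℝ) ≤ (1 + ε) * x := mul_le_mul_of_nonneg_left h4 (by linarith)
  linarith

theorem ratio_of_growth
    (h : Tendsto (fun k : ℕ => (rosen k : ℝ) / (k : ℝ) ^ 2) atTop (𝓝 (Real.pi / 8))) :
    Tendsto (fun k : ℕ => (rosen (k + 1) : ℝ) / rosen k) atTop (𝓝 1) := by
  have hpi : Real.pi / 8 ≠ 0 := by positivity
  have h1 : Tendsto (fun k : ℕ => (rosen (k + 1) : ℝ) / ((k + 1 : ℕ) : ℝ) ^ 2) atTop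
      (𝓝 (Real.pi / 8)) := h.comp (tendsto_add_atTop_nat 1)
  have h2 : Tendsto (fun k : ℕ => (((k + 1 : ℕ) : ℝ) / (k : ℝ)) ^ 2) atTop (𝓝 (1 ^ 2)) := by
    apply Tendsto.pow
    have h3 : Tendsto (fun k : ℕ => 1 + 1 / (k : ℝ)) atTop (𝓝 (1 + 0)) :=
      tendsto_const_nhds.add tendsto_one_div_atTop_nhds_zero_nat
    rw [add_zero] at h3
    refine h3.congr' ?_
    filter_upwards [eventually_ge_atTop 1] with k hk
    have hk0 : (k : ℝ) ≠ 0 := by
      have : 0 < k := hk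
      positivity
    push_cast
    field_simp
  have h4 := (h1.mul h2).mul (h.inv₀ hpi)
  have h5 : Real.pi / 8 * 1 ^ 2 * (Real.pi / 8)⁻¹ = 1 := by
    rw [one_pow, mul_one, mul_inv_cancel₀ hpi]
  rw [h5] at h4
  refine h4.congr' ?_
  filter_upwards [eventually_ge_atTop 1] with k hk
  have hk0 : (k : ℝ) ≠ 0 := by
    have : 0 < k := hk
    positivity
  have hk1 : ((k + 1 : ℕ) : ℝ) ≠ 0 := by positivity
  have hr : (rosen k : ℝ) ≠ 0 := by
    have h6 : k ≤ rosen k := le_rosen k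
    have h7 : 0 < rosen k := by omega
    positivity
  field_simp

end RosG
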