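import Pool.Agent.Lib.MP_e43e79_nt.Basic

/-!
# Rosen's sequence: gaps and growth (MP_e43e79_nt, helper61)
-/

set_option autoImplicit false

namespace RosG

open Filter Topology Ne729cbcb

/-- the generating function -/
noncomputable def Gf (a : ℕ → ℝ) (s : ℝ) : ℝ := ∑' k, Real.exp (-(s * a k))

/-- the limit functional of Karamata's theorem -/
noncomputable def Lf (f : ℝ → ℝ) : ℝ :=
  ∫ t in Set.Ioi (0 : ℝ), t ^ (-(1 / 2) : ℝ) * (Real.exp (-t) * f (Real.exp (-t)))

/-- the number of ordered pairs with sum at most `n` -/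
def Oc (a : ℕ → ℕ) (n : ℕ) : ℕ :=
  ((Finset.range (n + 1) ×ˢ Finset.range (n + 1)).filter
    fun p : ℕ × ℕ => a p.1 + a p.2 ≤ n).card

end RosG
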