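import Mathlib

/-!
# A Karamata Tauberian theorem of exponent one half

(helper83, for MP_e43e79_nt.) For a strictly increasing sequence `a` of natural numbers,
`√s * ∑ exp (-s a_k) → L` as `s → 0+` implies `(k + 1) / √(a_k) → 2 L / √π`.
-/

set_option autoImplicit false

namespace Pool.Agent.Kar

open Filter Topology MeasureTheory Set

/-- the transform of `f` -/
noncomputable def T (a : ℕ → ℕ) (f : ℝ → ℝ) (s : ℝ) : ℝ :=
  √s * ∑' k, Real.exp (-s * a k) * f (Real.exp (-s * a k))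

/-- the limit functional -/
noncomputable def I (f : ℝ → ℝ) : ℝ :=
  ∫ t in Ioi (0 : ℝ), t ^ ((1 : ℝ) / 2 - 1) * Real.exp (-t) * f (Real.exp (-t))

theorem summ {a : ℕ → ℕ} (ha : StrictMono a) {s : ℝ} (hs : 0 < s) :
    Summable (fun k => Real.exp (-s * a k)) := by
  have h1 : Summable (fun k : ℕ => (Real.exp (-s)) ^ k) :=
    summable_geometric_of_lt_one (Real.exp_pos _).le (by
      rw [Real.exp_lt_one_iff]; linarith)
  refine Summable.of_nonneg_of_le (fun k => (Real.exp_pos _).le) (fun k => ?_) h1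
  rw [← Real.exp_nat_mul]
  apply Real.exp_le_exp.mpr
  have : (k : ℝ) ≤ a k := by exact_mod_cast ha.id_le k
  nlinarith

theorem mem01 (a : ℕ → ℕ) {s : ℝ} (hs : 0 < s) (k : ℕ) :
    Real.exp (-s * a k) ∈ Icc (0 : ℝ) 1 := by
  refine ⟨(Real.exp_pos _).le, ?_⟩
  rw [Real.exp_le_one_iff]
  have : (0 : ℝ) ≤ a k := Nat.cast_nonneg _
  nlinarith

theorem summ_f {a : ℕ → ℕ} (ha : StrictMono a) {s : ℝ} (hs : 0 < s) {f : ℝ → ℝ} {C : ℝ}
    (hC : ∀ u ∈ Icc (0 : ℝ) 1, |f u| ≤ C) :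
    Summable (fun k => Real.exp (-s * a k) * f (Real.exp (-s * a k))) := by
  refine Summable.of_norm_bounded ((summ ha hs).mul_right C) (fun k => ?_)
  rw [Real.norm_eq_abs, abs_mul, abs_of_pos (Real.exp_pos _)]
  exact mul_le_mul_of_nonneg_left (hC _ (mem01 a hs k)) (Real.exp_pos _).le

theorem T_diff {a : ℕ → ℕ} (ha : StrictMono a) {s : ℝ} (hs : 0 < s) {f g : ℝ → ℝ} {C D ε : ℝ}
    (hC : ∀ u ∈ Icc (0 : ℝ) 1, |f u| ≤ C) (hD : ∀ u ∈ Icc (0 : ℝ) 1, |g u| ≤ D)
    (hε : ∀ u ∈ Icc (0 : ℝ) 1, |f u - g u| ≤ ε) :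
    |T a f s - T a g s| ≤ ε * (√s * ∑' k, Real.exp (-s * a k)) := by
  unfold T
  rw [← mul_sub, ← (summ_f ha hs hC).tsum_sub (summ_f ha hs hD), abs_mul,
    abs_of_nonneg (Real.sqrt_nonneg s)]
  have h1 : |∑' k, (Real.exp (-s * a k) * f (Real.exp (-s * a k)) -
      Real.exp (-s * a k) * g (Real.exp (-s * a k)))| ≤ ∑' k, Real.exp (-s * a k) * ε := by
    rw [← Real.norm_eq_abs]
    refine tsum_of_norm_bounded ((summ ha hs).mul_right ε).hasSum (fun k => ?_)
    rw [Real.norm_eq_abs, ← mul_sub, abs_mul, abs_of_pos (Real.exp_pos _)]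
    exact mul_le_mul_of_nonneg_left (hε _ (mem01 a hs k)) (Real.exp_pos _).le
  rw [tsum_mul_right] at h1
  calc √s * _ ≤ √s * ((∑' k, Real.exp (-s * a k)) * ε) :=
        mul_le_mul_of_nonneg_left h1 (Real.sqrt_nonneg s)
    _ = _ := by ring

theorem int_base : IntegrableOn (fun t : ℝ => t ^ ((1 : ℝ) / 2 - 1) * Real.exp (-t))
    (Ioi (0 : ℝ)) := by
  have := Real.GammaIntegral_convergent (s := 1 / 2) (by norm_num)
  refine this.congr_fun (fun t _ => ?_) measurableSet_Ioi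
  simp only
  ring

theorem int_f {f : ℝ → ℝ} (hf : ContinuousOn f (Icc 0 1)) {C : ℝ}
    (hC : ∀ u ∈ Icc (0 : ℝ) 1, |f u| ≤ C) :
    IntegrableOn (fun t : ℝ => t ^ ((1 : ℝ) / 2 - 1) * Real.exp (-t) * f (Real.exp (-t)))
    (Ioi (0 : ℝ)) := by
  have hm : ∀ t ∈ Ioi (0 : ℝ), Real.exp (-t) ∈ Icc (0 : ℝ) 1 := fun t ht =>
    ⟨(Real.exp_pos _).le, by rw [Real.exp_le_one_iff]; exact (neg_neg_of_pos ht).le⟩
  refine Integrable.mul_bdd (c := C) int_base ?_ ?_
  · refine ContinuousOn.aestronglyMeasurable ?_ measurableSet_Ioi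
    exact hf.comp (Continuous.continuousOn (by fun_prop)) hm
  · refine (ae_restrict_iff' measurableSet_Ioi).mpr (Eventually.of_forall fun t ht => ?_)
    exact hC _ (hm t ht)

theorem I_one : I (fun _ => 1) = √Real.pi := by
  unfold I
  have := Real.integral_rpow_mul_exp_neg_mul_Ioi (a := 1 / 2) (r := 1) (by norm_num) (by norm_num)
  simp only [one_mul, mul_one] at this ⊢
  rw [this, Real.Gamma_one_half_eq]
  simp

theorem I_diff {f g : ℝ → ℝ} (hf : ContinuousOn f (Icc 0 1)) (hg : ContinuousOn g (Icc 0 1))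
    {C D ε : ℝ} (hC : ∀ u ∈ Icc (0 : ℝ) 1, |f u| ≤ C) (hD : ∀ u ∈ Icc (0 : ℝ) 1, |g u| ≤ D)
    (hε : ∀ u ∈ Icc (0 : ℝ) 1, |f u - g u| ≤ ε) : |I f - I g| ≤ ε * √Real.pi := by
  have hm : ∀ t ∈ Ioi (0 : ℝ), Real.exp (-t) ∈ Icc (0 : ℝ) 1 := fun t ht =>
    ⟨(Real.exp_pos _).le, by rw [Real.exp_le_one_iff]; exact (neg_neg_of_pos ht).le⟩
  unfold I
  rw [← integral_sub (int_f hf hC) (int_f hg hD), ← I_one, ← Real.norm_eq_abs]
  unfold I
  rw [← integral_const_mul]
  refine norm_integral_le_of_norm_le ?_ ?_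
  · have := int_base.const_mul ε
    refine this.congr (Eventually.of_forall fun t => ?_)
    simp
  · refine (ae_restrict_iff' measurableSet_Ioi).mpr (Eventually.of_forall fun t ht => ?_)
    have h0 : 0 ≤ t ^ ((1 : ℝ) / 2 - 1) * Real.exp (-t) :=
      mul_nonneg (Real.rpow_nonneg (le_of_lt ht) _) (Real.exp_pos _).le
    rw [Real.norm_eq_abs, ← mul_sub, abs_mul, abs_of_nonneg h0, mul_one, mul_comm ε]
    exact mul_le_mul_of_nonneg_left (hε _ (hm t ht)) h0

theorem I_pow (m : ℕ) : I (fun u => u ^ m) = √Real.pi / √((m : ℝ) + 1) := by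
  unfold I
  have := Real.integral_rpow_mul_exp_neg_mul_Ioi (a := 1 / 2) (r := (m : ℝ) + 1)
    (by norm_num) (by positivity)
  rw [Real.Gamma_one_half_eq, ← Real.sqrt_eq_rpow, Real.sqrt_div (by norm_num), Real.sqrt_one]
    at this
  have e : √Real.pi / √((m : ℝ) + 1) =
      ∫ t in Ioi (0 : ℝ), t ^ ((1 : ℝ) / 2 - 1) * Real.exp (-(((m : ℝ) + 1) * t)) := by
    rw [this]; ring
  rw [e]
  refine setIntegral_congr_fun measurableSet_Ioi (fun t _ => ?_)
  simp only
  rw [← Real.exp_nat_mul, mul_assoc, ← Real.exp_add]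
  congr 2
  ring

theorem T_pow {a : ℕ → ℕ} {L : ℝ}
    (hL : Tendsto (fun s : ℝ => √s * ∑' k, Real.exp (-s * a k)) (𝓝[>] 0) (𝓝 L)) (m : ℕ) :
    Tendsto (T a (fun u => u ^ m)) (𝓝[>] 0) (𝓝 (L / √Real.pi * I (fun u => u ^ m))) := by
  have hm : (0 : ℝ) < (m : ℝ) + 1 := by positivity
  have h1 : Tendsto (fun s : ℝ => ((m : ℝ) + 1) * s) (𝓝[>] 0) (𝓝[>] 0) := by
    refine tendsto_nhdsWithin_iff.mpr ⟨?_, ?_⟩
    · have : Tendsto (fun s : ℝ => ((m : ℝ) + 1) * s) (𝓝 0) (𝓝 (((m : ℝ) + 1) * 0)) :=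
        (continuous_const.mul continuous_id).tendsto 0
      rw [mul_zero] at this
      exact this.mono_left nhdsWithin_le_nhds
    · filter_upwards [self_mem_nhdsWithin] with s hs
      exact mul_pos hm hs
  have h2 := (hL.comp h1).const_mul (1 / √((m : ℝ) + 1))
  have h3 : L / √Real.pi * I (fun u => u ^ m) = 1 / √((m : ℝ) + 1) * L := by
    rw [I_pow]
    have : √Real.pi ≠ 0 := (Real.sqrt_pos.mpr Real.pi_pos).ne'
    field_simp
  rw [h3]
  refine h2.congr' ?_
  filter_upwards [self_mem_nhdsWithin] with s hs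
  have hs' : (0 : ℝ) < s := hs
  unfold T
  simp only [Function.comp]
  rw [Real.sqrt_mul hm.le]
  have h4 : √((m : ℝ) + 1) ≠ 0 := (Real.sqrt_pos.mpr hm).ne'
  have h5 : ∀ k, Real.exp (-(((m : ℝ) + 1) * s) * a k) =
      Real.exp (-s * a k) * Real.exp (-s * a k) ^ m := by
    intro k
    rw [← Real.exp_nat_mul, ← Real.exp_add]
    congr 1
    ring
  simp_rw [h5]
  field_simp

theorem bdd_of_cont {f : ℝ → ℝ} (hf : ContinuousOn f (Icc 0 1)) :
    ∃ C, ∀ u ∈ Icc (0 : ℝ) 1, |f u| ≤ C := by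
  obtain ⟨C, hC⟩ := isCompact_Icc.exists_bound_of_continuousOn hf
  exact ⟨C, fun u hu => by simpa using hC u hu⟩

theorem T_poly {a : ℕ → ℕ} (ha : StrictMono a) {L : ℝ}
    (hL : Tendsto (fun s : ℝ => √s * ∑' k, Real.exp (-s * a k)) (𝓝[>] 0) (𝓝 L))
    (P : Polynomial ℝ) :
    Tendsto (T a (fun u => P.eval u)) (𝓝[>] 0) (𝓝 (L / √Real.pi * I (fun u => P.eval u))) := by
  have hc : ∀ P : Polynomial ℝ, ContinuousOn (fun u => P.eval u) (Icc 0 1) :=
    fun P => P.continuous.continuousOn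
  induction P using Polynomial.induction_on' with
  | add P Q hP hQ =>
    obtain ⟨C, hC⟩ := bdd_of_cont (hc P)
    obtain ⟨D, hD⟩ := bdd_of_cont (hc Q)
    have h1 : I (fun u => (P + Q).eval u) = I (fun u => P.eval u) + I (fun u => Q.eval u) := by
      unfold I
      rw [← integral_add (int_f (hc P) hC) (int_f (hc Q) hD)]
      refine integral_congr_ae (Eventually.of_forall fun t => ?_)
      simp only [Polynomial.eval_add]
      ring
    rw [h1, mul_add]
    refine (hP.add hQ).congr' ?_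
    filter_upwards [self_mem_nhdsWithin] with s hs
    have hs' : (0 : ℝ) < s := hs
    unfold T
    rw [← mul_add, ← (summ_f ha hs' hC).tsum_add (summ_f ha hs' hD)]
    congr 1
    refine tsum_congr fun k => ?_
    simp only [Polynomial.eval_add]
    ring
  | monomial n c =>
    have h1 : I (fun u => (Polynomial.monomial n c).eval u) = c * I (fun u => u ^ n) := by
      unfold I
      rw [← integral_const_mul]
      refine integral_congr_ae (Eventually.of_forall fun t => ?_)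
      simp only [Polynomial.eval_monomial]
      ring
    have h2 := (T_pow hL n).const_mul c
    rw [h1]
    have h3 : L / √Real.pi * (c * I (fun u => u ^ n)) = c * (L / √Real.pi * I (fun u => u ^ n)) := by
      ring
    rw [h3]
    refine h2.congr fun s => ?_
    unfold T
    rw [mul_left_comm, ← tsum_mul_left]
    congr 1
    refine tsum_congr fun k => ?_
    simp only [Polynomial.eval_monomial]
    ring

theorem T_cont {a : ℕ → ℕ} (ha : StrictMono a) {L : ℝ}
    (hL : Tendsto (fun s : ℝ => √s * ∑' k, Real.exp (-s * a k)) (𝓝[>] 0) (𝓝 L))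
    {f : ℝ → ℝ} (hf : ContinuousOn f (Icc 0 1)) :
    Tendsto (T a f) (𝓝[>] 0) (𝓝 (L / √Real.pi * I f)) := by
  obtain ⟨C, hC⟩ := bdd_of_cont hf
  have hπ : 0 < √Real.pi := Real.sqrt_pos.mpr Real.pi_pos
  rw [Metric.tendsto_nhds]
  intro ε hε
  set δ := ε / (4 * (|L| + 1)) with hδ
  have hδ0 : 0 < δ := by positivity
  obtain ⟨P, hP⟩ := exists_polynomial_near_of_continuousOn 0 1 f hf δ hδ0
  have hPc : ContinuousOn (fun u => P.eval u) (Icc 0 1) := P.continuous.continuousOn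
  obtain ⟨D, hD⟩ := bdd_of_cont hPc
  have hfP : ∀ u ∈ Icc (0 : ℝ) 1, |f u - P.eval u| ≤ δ := fun u hu => by
    rw [abs_sub_comm]; exact (hP u hu).le
  have h1 := I_diff hf hPc hC hD hfP
  have h2 := (Metric.tendsto_nhds.mp (T_poly ha hL P)) (ε / 4) (by positivity)
  have h3 := (Metric.tendsto_nhds.mp hL) 1 one_pos
  filter_upwards [self_mem_nhdsWithin, h2, h3] with s hs h2 h3
  have hs' : (0 : ℝ) < s := hs
  have h4 := T_diff ha hs' hC hD hfP
  rw [Real.dist_eq] at h2 h3 ⊢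
  have h5 : √s * ∑' k, Real.exp (-s * a k) ≤ |L| + 1 := by
    have := abs_lt.mp h3
    have := le_abs_self L
    linarith
  have h6 : |T a f s - T a (fun u => P.eval u) s| ≤ ε / 4 := by
    refine h4.trans ?_
    calc δ * (√s * ∑' k, Real.exp (-s * a k)) ≤ δ * (|L| + 1) :=
          mul_le_mul_of_nonneg_left h5 hδ0.le
      _ = ε / 4 := by rw [hδ]; field_simp
  have h7 : |L / √Real.pi * I f - L / √Real.pi * I (fun u => P.eval u)| ≤ ε / 4 := by
    rw [← mul_sub, abs_mul, abs_div, abs_of_pos hπ]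
    calc |L| / √Real.pi * |I f - I (fun u => P.eval u)| ≤ |L| / √Real.pi * (δ * √Real.pi) :=
          mul_le_mul_of_nonneg_left h1 (by positivity)
      _ = |L| * δ := by field_simp
      _ ≤ (|L| + 1) * δ := by nlinarith
      _ = ε / 4 := by rw [hδ]; field_simp
  have e : T a f s - L / √Real.pi * I f = (T a f s - T a (fun u => P.eval u) s) +
      (T a (fun u => P.eval u) s - L / √Real.pi * I (fun u => P.eval u)) -
      (L / √Real.pi * I f - L / √Real.pi * I (fun u => P.eval u)) := by ring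
  rw [e]
  refine (abs_sub _ _).trans_lt ?_
  have := abs_add_le (T a f s - T a (fun u => P.eval u) s)
      (T a (fun u => P.eval u) s - L / √Real.pi * I (fun u => P.eval u))
  linarith

/-- the continuous cut-off: `1/u` for `u ≥ c₂`, `0` for `u ≤ c₁` -/
noncomputable def phi (c₁ c₂ u : ℝ) : ℝ := max 0 (min 1 ((u - c₁) / (c₂ - c₁))) / max u c₁

theorem phi_cont {c₁ c₂ : ℝ} (h0 : 0 < c₁) : Continuous (phi c₁ c₂) := by
  unfold phi
  refine Continuous.div (by fun_prop) (by fun_prop) (fun u => ?_)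
  exact (h0.trans_le (le_max_right _ _)).ne'

theorem phi_hi {c₁ c₂ u : ℝ} (h0 : 0 < c₁) (h : c₁ < c₂) (hu : c₂ ≤ u) : u * phi c₁ c₂ u = 1 := by
  unfold phi
  have h1 : 1 ≤ (u - c₁) / (c₂ - c₁) := by rw [le_div_iff₀ (by linarith)]; linarith
  rw [min_eq_left h1, max_eq_right zero_le_one, max_eq_left (by linarith)]
  have : u ≠ 0 := by linarith
  field_simp

theorem phi_lo {c₁ c₂ u : ℝ} (h : c₁ < c₂) (hu : u ≤ c₁) : u * phi c₁ c₂ u = 0 := by
  unfold phi
  have h1 : (u - c₁) / (c₂ - c₁) ≤ 0 := div_nonpos_of_nonpos_of_nonneg (by linarith) (by linarith)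
  rw [max_eq_left ((min_le_right _ _).trans h1)]
  simp

theorem phi_nonneg {c₁ c₂ u : ℝ} (hu : 0 < u) : 0 ≤ u * phi c₁ c₂ u := by
  unfold phi
  exact mul_nonneg hu.le (div_nonneg (le_max_left _ _) (hu.le.trans (le_max_left _ _)))

theorem phi_le_one {c₁ c₂ u : ℝ} (hu : 0 < u) : u * phi c₁ c₂ u ≤ 1 := by
  unfold phi
  have h1 : 0 < max u c₁ := hu.trans_le (le_max_left _ _)
  rw [mul_div_assoc', div_le_one h1]
  have h2 : max 0 (min 1 ((u - c₁) / (c₂ - c₁))) ≤ 1 := max_le zero_le_one (min_le_left _ _)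
  calc u * _ ≤ u * 1 := mul_le_mul_of_nonneg_left h2 hu.le
    _ ≤ max u c₁ := by rw [mul_one]; exact le_max_left _ _

theorem int_rpow (τ : ℝ) (hτ : 0 < τ) :
    ∫ t in Ioc (0 : ℝ) τ, t ^ ((1 : ℝ) / 2 - 1) = 2 * √τ := by
  rw [← intervalIntegral.integral_of_le hτ.le, integral_rpow (Or.inl (by norm_num))]
  rw [Real.sqrt_eq_rpow]
  norm_num
  ring

theorem int_rpow_on (τ : ℝ) (hτ : 0 < τ) :
    IntegrableOn (fun t : ℝ => t ^ ((1 : ℝ) / 2 - 1)) (Ioc 0 τ) := by
  rw [← intervalIntegrable_iff_integrableOn_Ioc_of_le hτ.le]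
  exact intervalIntegral.intervalIntegrable_rpow' (by norm_num)

theorem I_phi_le {τ₁ τ₂ : ℝ} (h2 : 0 < τ₂) (h : τ₂ < τ₁) :
    I (phi (Real.exp (-τ₁)) (Real.exp (-τ₂))) ≤ 2 * √τ₁ := by
  have hc : Real.exp (-τ₁) < Real.exp (-τ₂) := Real.exp_lt_exp.mpr (by linarith)
  have h1 : 0 < τ₁ := h2.trans h
  rw [← int_rpow τ₁ h1]
  unfold I
  have e : ∫ t in Ioc (0 : ℝ) τ₁, t ^ ((1 : ℝ) / 2 - 1) =
      ∫ t in Ioi (0 : ℝ), (Iic τ₁).indicator (fun t => t ^ ((1 : ℝ) / 2 - 1)) t := by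
    rw [setIntegral_indicator measurableSet_Iic, Ioi_inter_Iic]
  rw [e]
  obtain ⟨C, hC⟩ := bdd_of_cont (f := phi (Real.exp (-τ₁)) (Real.exp (-τ₂)))
    (phi_cont (Real.exp_pos _)).continuousOn
  refine setIntegral_mono_on (int_f (phi_cont (Real.exp_pos _)).continuousOn hC) ?_
    measurableSet_Ioi (fun t ht => ?_)
  · rw [integrableOn_indicator_iff measurableSet_Iic, inter_comm, Ioi_inter_Iic]
    exact int_rpow_on τ₁ h1
  · have h0 : 0 ≤ t ^ ((1 : ℝ) / 2 - 1) := Real.rpow_nonneg (le_of_lt ht) _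
    rw [mul_assoc]
    by_cases htτ : t ≤ τ₁
    · rw [indicator_of_mem (show t ∈ Iic τ₁ from htτ)]
      calc _ ≤ t ^ ((1 : ℝ) / 2 - 1) * 1 :=
            mul_le_mul_of_nonneg_left (phi_le_one (Real.exp_pos _)) h0
        _ = _ := mul_one _
    · rw [indicator_of_notMem (show t ∉ Iic τ₁ from htτ)]
      rw [phi_lo hc (Real.exp_le_exp.mpr (by linarith [not_le.mp htτ])), mul_zero]

theorem le_I_phi {τ₁ τ₂ : ℝ} (h2 : 0 < τ₂) (h : τ₂ < τ₁) :
    2 * √τ₂ ≤ I (phi (Real.exp (-τ₁)) (Real.exp (-τ₂))) := by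
  have hc : Real.exp (-τ₁) < Real.exp (-τ₂) := Real.exp_lt_exp.mpr (by linarith)
  rw [← int_rpow τ₂ h2]
  unfold I
  have e : ∫ t in Ioc (0 : ℝ) τ₂, t ^ ((1 : ℝ) / 2 - 1) =
      ∫ t in Ioi (0 : ℝ), (Iic τ₂).indicator (fun t => t ^ ((1 : ℝ) / 2 - 1)) t := by
    rw [setIntegral_indicator measurableSet_Iic, Ioi_inter_Iic]
  rw [e]
  obtain ⟨C, hC⟩ := bdd_of_cont (f := phi (Real.exp (-τ₁)) (Real.exp (-τ₂)))
    (phi_cont (Real.exp_pos _)).continuousOn
  refine setIntegral_mono_on ?_ (int_f (phi_cont (Real.exp_pos _)).continuousOn hC)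
    measurableSet_Ioi (fun t ht => ?_)
  · rw [integrableOn_indicator_iff measurableSet_Iic, inter_comm, Ioi_inter_Iic]
    exact int_rpow_on τ₂ h2
  · have h0 : 0 ≤ t ^ ((1 : ℝ) / 2 - 1) := Real.rpow_nonneg (le_of_lt ht) _
    rw [mul_assoc]
    by_cases htτ : t ≤ τ₂
    · rw [indicator_of_mem (show t ∈ Iic τ₂ from htτ)]
      rw [phi_hi (Real.exp_pos _) hc (Real.exp_le_exp.mpr (by linarith)), mul_one]
    · rw [indicator_of_notMem (show t ∉ Iic τ₂ from htτ)]
      exact mul_nonneg h0 (phi_nonneg (Real.exp_pos _))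

/-- **Karamata, exponent one half.** -/
theorem karamata_half (a : ℕ → ℕ) (ha : StrictMono a) (L : ℝ)
    (hL : Tendsto (fun s : ℝ => √s * ∑' k, Real.exp (-s * a k)) (𝓝[>] 0) (𝓝 L)) :
    Tendsto (fun k : ℕ => ((k : ℝ) + 1) / √(a k)) atTop (𝓝 (2 * L / √Real.pi)) := by
  have hπ : 0 < √Real.pi := Real.sqrt_pos.mpr Real.pi_pos
  have hL0 : 0 ≤ L := by
    refine ge_of_tendsto hL (Eventually.of_forall fun s => ?_)
    exact mul_nonneg (Real.sqrt_nonneg _) (tsum_nonneg fun k => (Real.exp_pos _).le)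
  have hpos : ∀ k : ℕ, 1 ≤ k → (0 : ℝ) < a k := by
    intro k hk
    have : k ≤ a k := ha.id_le k
    exact_mod_cast (by omega : 0 < a k)
  have hat : Tendsto (fun k : ℕ => (a k : ℝ)) atTop atTop :=
    tendsto_natCast_atTop_atTop.comp ha.tendsto_atTop
  have hs : Tendsto (fun k : ℕ => 1 / (a k : ℝ)) atTop (𝓝[>] 0) := by
    refine tendsto_nhdsWithin_iff.mpr ⟨?_, ?_⟩
    · simp only [one_div]
      exact hat.inv_tendsto_atTop
    · filter_upwards [eventually_ge_atTop 1] with k hk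
      exact one_div_pos.mpr (hpos k hk)
  have hcont : Tendsto (fun τ : ℝ => 2 * L * √τ / √Real.pi) (𝓝 1) (𝓝 (2 * L / √Real.pi)) := by
    have : Continuous (fun τ : ℝ => 2 * L * √τ / √Real.pi) := by fun_prop
    have h := this.tendsto 1
    simpa using h
  refine tendsto_order.mpr ⟨fun b hb => ?_, fun b hb => ?_⟩
  · -- lower bound
    have h1 : ∀ᶠ τ in 𝓝[<] (1 : ℝ), b < 2 * L * √τ / √Real.pi :=
      (hcont.eventually_const_lt hb).filter_mono nhdsWithin_le_nhds
    have h2 : ∀ᶠ τ in 𝓝[<] (1 : ℝ), (0 : ℝ) < τ :=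
      ((lt_mem_nhds (show (0 : ℝ) < 1 by norm_num))).filter_mono nhdsWithin_le_nhds
    obtain ⟨τ, hτb, hτ0, hτ1⟩ := (h1.and (h2.and self_mem_nhdsWithin)).exists
    have hτ1' : τ < 1 := hτ1
    have hc : Real.exp (-1) < Real.exp (-τ) := Real.exp_lt_exp.mpr (by linarith)
    have hφc : Continuous (phi (Real.exp (-1)) (Real.exp (-τ))) := phi_cont (Real.exp_pos _)
    have hI := le_I_phi hτ0 hτ1'
    have hlim := (T_cont ha hL hφc.continuousOn).comp hs
    have hb' : b < L / √Real.pi * I (phi (Real.exp (-1)) (Real.exp (-τ))) := by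
      refine hτb.trans_le ?_
      calc 2 * L * √τ / √Real.pi = L / √Real.pi * (2 * √τ) := by ring
        _ ≤ _ := mul_le_mul_of_nonneg_left hI (by positivity)
    filter_upwards [hlim.eventually_const_lt hb', eventually_ge_atTop 1] with k hk hk1
    refine hk.trans_le ?_
    have hak := hpos k hk1
    simp only [Function.comp, T]
    have h3 : ∑' j, Real.exp (-(1 / (a k : ℝ)) * a j) *
        phi (Real.exp (-1)) (Real.exp (-τ)) (Real.exp (-(1 / (a k : ℝ)) * a j)) ≤ (k : ℝ) + 1 := by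
      rw [tsum_eq_sum (s := Finset.range (k + 1))]
      · calc _ ≤ ∑ j ∈ Finset.range (k + 1), (1 : ℝ) :=
              Finset.sum_le_sum fun j _ => phi_le_one (Real.exp_pos _)
          _ = _ := by simp
      · intro j hj
        have hj' : k < j := by
          rw [Finset.mem_range] at hj
          omega
        refine phi_lo hc (Real.exp_le_exp.mpr ?_)
        have h4 : (a k : ℝ) < a j := by exact_mod_cast ha hj'
        have h5 : 1 ≤ 1 / (a k : ℝ) * a j := by
          rw [one_div, inv_mul_eq_div, le_div_iff₀ hak]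
          linarith
        linarith
    calc _ ≤ √(1 / (a k : ℝ)) * ((k : ℝ) + 1) :=
          mul_le_mul_of_nonneg_left h3 (Real.sqrt_nonneg _)
      _ = _ := by rw [Real.sqrt_div (by norm_num), Real.sqrt_one]; ring
  · -- upper bound
    have h1 : ∀ᶠ τ in 𝓝[>] (1 : ℝ), 2 * L * √τ / √Real.pi < b :=
      (hcont.eventually_lt_const hb).filter_mono nhdsWithin_le_nhds
    obtain ⟨τ, hτb, hτ1⟩ := (h1.and self_mem_nhdsWithin).exists
    have hτ1' : 1 < τ := hτ1
    have hc : Real.exp (-τ) < Real.exp (-1) := Real.exp_lt_exp.mpr (by linarith)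
    have hφc : Continuous (phi (Real.exp (-τ)) (Real.exp (-1))) := phi_cont (Real.exp_pos _)
    have hI := I_phi_le one_pos hτ1'
    have hlim := (T_cont ha hL hφc.continuousOn).comp hs
    have hb' : L / √Real.pi * I (phi (Real.exp (-τ)) (Real.exp (-1))) < b := by
      refine lt_of_le_of_lt ?_ hτb
      calc L / √Real.pi * I (phi (Real.exp (-τ)) (Real.exp (-1))) ≤ L / √Real.pi * (2 * √τ) :=
            mul_le_mul_of_nonneg_left hI (by positivity)
        _ = _ := by ring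
    filter_upwards [hlim.eventually_lt_const hb', eventually_ge_atTop 1] with k hk hk1
    refine lt_of_le_of_lt ?_ hk
    have hak := hpos k hk1
    have hs0 : 0 < 1 / (a k : ℝ) := one_div_pos.mpr hak
    simp only [Function.comp, T]
    obtain ⟨C, hC⟩ := bdd_of_cont (f := phi (Real.exp (-τ)) (Real.exp (-1))) hφc.continuousOn
    have h3 : (k : ℝ) + 1 ≤ ∑' j, Real.exp (-(1 / (a k : ℝ)) * a j) *
        phi (Real.exp (-τ)) (Real.exp (-1)) (Real.exp (-(1 / (a k : ℝ)) * a j)) := by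
      refine le_trans ?_ ((summ_f ha hs0 hC).sum_le_tsum (Finset.range (k + 1))
        (fun j _ => phi_nonneg (Real.exp_pos _)))
      have h4 : ∀ j ∈ Finset.range (k + 1), Real.exp (-(1 / (a k : ℝ)) * a j) *
          phi (Real.exp (-τ)) (Real.exp (-1)) (Real.exp (-(1 / (a k : ℝ)) * a j)) = 1 := by
        intro j hj
        have hj' : j ≤ k := by
          rw [Finset.mem_range] at hj
          omega
        refine phi_hi (Real.exp_pos _) hc (Real.exp_le_exp.mpr ?_)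
        have h4 : (a j : ℝ) ≤ a k := by exact_mod_cast ha.monotone hj'
        have h5 : 1 / (a k : ℝ) * a j ≤ 1 := by
          rw [one_div, inv_mul_eq_div, div_le_one hak]
          exact h4
        linarith
      rw [Finset.sum_congr rfl h4]
      simp
    calc ((k : ℝ) + 1) / √(a k) = √(1 / (a k : ℝ)) * ((k : ℝ) + 1) := by
          rw [Real.sqrt_div (by norm_num), Real.sqrt_one]; ring
      _ ≤ _ := mul_le_mul_of_nonneg_left h3 (Real.sqrt_nonneg _)

end Pool.Agent.Kar
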