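import Pool.Agent.Lib.RosG.Kar
import Pool.Agent.Lib.RosG.A1
import Pool.Agent.Lib.RosG.A2
import Pool.Agent.Lib.RosG.A3
import Pool.Agent.Lib.RosG.B1

/-!
# Rosen's sequence: Q1, the gaps and the growth (MP_e43e79_nt, helper61)
-/

set_option autoImplicit false

namespace RosG

open Filter Topology Ne729cbcb Pool.Agent.Lib.MP_e43e79_nt

theorem growth_of_q1
    (h : ∀ ε > (0 : ℝ), ∀ᶠ x : ℕ in atTop, (solutionCount x : ℝ) ≤ (1 + ε) * x) :
    Tendsto (fun k : ℕ => (rosen k : ℝ) / (k : ℝ) ^ 2) atTop (𝓝 (Real.pi / 8)) := by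
  have h1 := abel (oc_tendsto h)
  have h2 : Tendsto (fun s : ℝ => s * Gf (fun k => (rosen k : ℝ)) s ^ 2) (𝓝[>] 0) (𝓝 2) := by
    refine h1.congr' ?_
    filter_upwards [self_mem_nhdsWithin] with s hs
    rw [gf_sq le_rosen hs]
  have h3 : Tendsto (fun s : ℝ => √s * ∑' k, Real.exp (-s * rosen k)) (𝓝[>] 0) (𝓝 √2) := by
    refine (((Real.continuous_sqrt.tendsto 2).comp h2).congr' ?_)
    filter_upwards [self_mem_nhdsWithin] with s hs
    have hs0 : 0 < s := hs
    have hG : 0 ≤ Gf (fun k => (rosen k : ℝ)) s := tsum_nonneg fun k => (Real.exp_pos _).le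
    have e : Gf (fun k => (rosen k : ℝ)) s = ∑' k, Real.exp (-s * rosen k) := by
      unfold Gf
      refine tsum_congr fun k => ?_
      congr 1
      ring
    rw [Function.comp_apply, Real.sqrt_mul hs0.le, Real.sqrt_sq hG, e]
  have h4 := Pool.Agent.Kar.karamata_half rosen rosen_strictMono √2 h3
  have h5 := (h4.pow 2).inv₀ (by positivity)
  have h6 : (((2 * √2 / √Real.pi) ^ 2)⁻¹ : ℝ) = Real.pi / 8 := by
    have hpi := Real.pi_pos
    rw [div_pow, mul_pow, Real.sq_sqrt (by norm_num), Real.sq_sqrt hpi.le]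
    field_simp
    norm_num
  rw [h6] at h5
  have h7 : Tendsto (fun k : ℕ => (((k : ℝ) + 1) / k) ^ 2) atTop (𝓝 1) := by
    have h8 : Tendsto (fun k : ℕ => ((k : ℝ) + 1) / k) atTop (𝓝 1) := by
      have h9 : Tendsto (fun k : ℕ => 1 + 1 / (k : ℝ)) atTop (𝓝 (1 + 0)) :=
        tendsto_const_nhds.add tendsto_one_div_atTop_nhds_zero_nat
      rw [add_zero] at h9
      refine h9.congr' ?_
      filter_upwards [eventually_gt_atTop 0] with k hk
      have : (k : ℝ) ≠ 0 := by positivity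
      field_simp
    simpa using h8.pow 2
  have h10 := h5.mul h7
  rw [mul_one] at h10
  refine h10.congr' ?_
  filter_upwards [eventually_gt_atTop 0] with k hk
  have hk0 : (k : ℝ) ≠ 0 := by positivity
  have hk1 : (k : ℝ) + 1 ≠ 0 := by positivity
  have hr : (0 : ℝ) ≤ (rosen k : ℝ) := Nat.cast_nonneg _
  rw [div_pow, Real.sq_sqrt hr, inv_div, div_pow]
  field_simp

theorem criterion : List.TFAE [
    (∀ ε > (0 : ℝ), ∀ᶠ x : ℕ in atTop, (solutionCount x : ℝ) ≤ (1 + ε) * x),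
    Tendsto (fun k : ℕ => (rosen (k + 1) : ℝ) / rosen k) atTop (𝓝 1),
    Tendsto (fun k : ℕ => (rosen k : ℝ) / (k : ℝ) ^ 2) atTop (𝓝 (Real.pi / 8))] := by
  tfae_have 1 → 3 := growth_of_q1
  tfae_have 3 → 2 := ratio_of_growth
  tfae_have 2 → 1 := q1_of_ratio
  tfae_finish

end RosG
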